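import Pool.Agent.Helper6.MC.Deg

/-!
# Automorphisms of colourings of pairs: orbits of pointwise stabilisers
-/

set_option autoImplicit false
set_option linter.unusedSectionVars false

namespace Pool.Agent.Helper12.EK

open Pool.Agent.Helper6.MC

variable {M Col : Type} [Fintype M] [DecidableEq M] [DecidableEq Col]

/-- the automorphisms which fix `A` pointwise -/
def St (c : M → M → Col) (A : Finset M) (g : Equiv.Perm M) : Prop := IsAut c g ∧ ∀ a ∈ A, g a = a

/-- orbits -/
noncomputable def Orb (c : M → M → Col) (A : Finset M) (x : M) : Finset M :=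
  open Classical in Finset.univ.filter (fun y => ∃ g, St c A g ∧ g x = y)

/-- the elements of an orbit differ at few elements -/
def HitO (c : M → M → Col) (A : Finset M) (L : ℕ) : Prop :=
  ∀ x, ∀ y ∈ Orb c A x, (Df c x y).card ≤ L

/-- the elements of large orbits -/
noncomputable def LO (c : M → M → Col) (A : Finset M) (L : ℕ) : Finset M :=
  Finset.univ.filter (fun x => 4 * L < (Orb c A x).card)

/-- the minority graph of the large orbits -/
def EO (c : M → M → Col) (A : Finset M) (L : ℕ) (x z : M) : Prop :=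
  x ∈ LO c A L ∧ z ∈ LO c A L ∧
    2 * ((Orb c A x).filter (fun x' => c x' z = c x z)).card ≤ (Orb c A x).card

/-- the graph of a relation -/
def Gr (E : M → M → Prop) : SimpleGraph M := SimpleGraph.fromRel E

/-- balls -/
noncomputable def Ball (E : M → M → Prop) (x : M) (ρ : ℕ) : Finset M :=
  open Classical in Finset.univ.filter (fun y => (Gr E).Reachable x y ∧ (Gr E).dist x y ≤ ρ)

/-- components -/
noncomputable def Cmp (E : M → M → Prop) (x : M) : Finset M :=
  open Classical in Finset.univ.filter (fun y => (Gr E).Reachable x y)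

variable {c : M → M → Col} {A : Finset M} {L : ℕ}

lemma mem_Orb {x y : M} : y ∈ Orb c A x ↔ ∃ g, St c A g ∧ g x = y := by
  unfold Orb; simp

lemma mem_LO {x : M} : x ∈ LO c A L ↔ 4 * L < (Orb c A x).card := by
  unfold LO; simp

lemma mem_Ball {E : M → M → Prop} {x y : M} {ρ : ℕ} :
    y ∈ Ball E x ρ ↔ (Gr E).Reachable x y ∧ (Gr E).dist x y ≤ ρ := by
  unfold Ball; simp

lemma mem_Cmp {E : M → M → Prop} {x y : M} : y ∈ Cmp E x ↔ (Gr E).Reachable x y := by
  unfold Cmp; simp

lemma St.one : St c A (Equiv.refl M) := ⟨fun _ _ => rfl, fun _ _ => rfl⟩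

lemma St.inv {g : Equiv.Perm M} (h : St c A g) : St c A g.symm := by
  refine ⟨fun x y => ?_, fun a ha => ?_⟩
  · have := h.1 (g.symm x) (g.symm y)
    rw [Equiv.apply_symm_apply, Equiv.apply_symm_apply] at this
    exact this.symm
  · rw [Equiv.symm_apply_eq]
    exact (h.2 a ha).symm

lemma St.trans {g g' : Equiv.Perm M} (h : St c A g) (h' : St c A g') : St c A (g'.trans g) := by
  refine ⟨fun x y => (h.1 _ _).trans (h'.1 _ _), fun a ha => ?_⟩
  show g (g' a) = a
  rw [h'.2 a ha, h.2 a ha]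

lemma St.mono {A' : Finset M} (hA : A ⊆ A') {g : Equiv.Perm M} (h : St c A' g) : St c A g :=
  ⟨h.1, fun a ha => h.2 a (hA ha)⟩

lemma self_Orb (x : M) : x ∈ Orb c A x := mem_Orb.2 ⟨Equiv.refl M, St.one, rfl⟩

lemma Orb_mono {A' : Finset M} (hA : A ⊆ A') (x : M) : Orb c A' x ⊆ Orb c A x := by
  intro y hy
  obtain ⟨g, hg, h⟩ := mem_Orb.1 hy
  exact mem_Orb.2 ⟨g, hg.mono hA, h⟩

lemma Orb_eq {x y : M} (h : y ∈ Orb c A x) : Orb c A y = Orb c A x := by
  obtain ⟨g, hg, rfl⟩ := mem_Orb.1 h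
  ext z
  rw [mem_Orb, mem_Orb]
  constructor
  · rintro ⟨f, hf, rfl⟩
    exact ⟨g.trans f, hf.trans hg, rfl⟩
  · rintro ⟨f, hf, rfl⟩
    exact ⟨g.symm.trans f, hf.trans hg.inv, by simp⟩

lemma Orb_of_mem {x : M} (hx : x ∈ A) : Orb c A x = {x} := by
  ext y
  rw [mem_Orb, Finset.mem_singleton]
  constructor
  · rintro ⟨g, hg, rfl⟩
    exact hg.2 x hx
  · rintro rfl
    exact ⟨Equiv.refl M, St.one, rfl⟩

lemma map_Orb {x y : M} (h : y ∈ Orb c A x) {g : Equiv.Perm M} (hg : St c A g) : g y ∈ Orb c A x := by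
  obtain ⟨f, hf, rfl⟩ := mem_Orb.1 h
  exact mem_Orb.2 ⟨f.trans g, hg.trans hf, rfl⟩

lemma LO_of_mem {x y : M} (h : y ∈ Orb c A x) (hx : x ∈ LO c A L) : y ∈ LO c A L := by
  rw [mem_LO, Orb_eq h]
  exact mem_LO.1 hx

end Pool.Agent.Helper12.EK
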