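import Pool.Agent.Helper12.EK.Orb2
import Pool.Agent.Helper6.EK.Deg
import Pool.Agent.Helper14.EK.K6
import Pool.Agent.Helper14.EK.K10
import Pool.Agent.Helper31.EK.K5
import Pool.Agent.Helper83.EK.SC
import Pool.Agent.Helper96.EK.Num
import Pool.Agent.Helper40.EK.Key
import Pool.Agent.Helper38.EK.K12
import Pool.Agent.Helper20.EK.K13

/-!
# The exact border for binary first-order sentences
-/

set_option autoImplicit false
set_option linter.unusedSectionVars false

namespace Pool.Agent.Helper12.EK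

open Pool.Agent.Helper6.MC

section

variable {M Col : Type} [Fintype M] [DecidableEq M] [DecidableEq Col] {c : M → M → Col}

/-- K7: a small component with a large orbit gives a family -/
theorem small_comp (hf : Flip c) {A : Finset M} {L : ℕ} (hH : HitO c A L) {x : M} {k D : ℕ}
    (hk : (Cmp (EO c A L) x).card ≤ k) (hO : k * (D + 16 * L ^ 3 + 4 * L + 1) < (Orb c A x).card) :
    ∃ t, 1 ≤ t ∧ t ≤ k ∧ Fam c t D :=
  Pool.Agent.Helper83.EK.small_comp_of hf (fun hx hz hx' hz' h h' => EO_hom hf hH hx hz hx' hz' h h')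
    (fun hg _ _ h => EO_aut hg h) (fun h => orbital hH h) hk hO

/-- K8: one step: from orbits of size `≤ s` to orbits of size `≤ s'` -/
theorem step (hf : Flip c) {A₀ : Finset M} {s s' q L M₀ D : ℕ} (hq : 1 ≤ q) (hs : ∀ x, (Orb c A₀ x).card ≤ s)
    (hL : s * (q - 1) ^ (L + 1) * q ≤ q ^ (L + 1)) (hM : (q - 1) ^ (M₀ + 1) * q ≤ q ^ (M₀ + 1))
    (h1 : ((M₀ + 1) * (2 * L + 1) ^ 2) ^ (Nat.log 2 M₀ + 1) ≤ s')
    (h2 : M₀ * (D + 16 * L ^ 3 + 4 * L + 1) ≤ s') (hD : ∀ t, 1 ≤ t → t ≤ M₀ → ¬ Fam c t D) :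
    ∃ A, A₀ ⊆ A ∧ q * A.card ≤ q * A₀.card + 4 * Fintype.card M ∧ ∀ x, (Orb c A x).card ≤ s' := by
  classical
  obtain ⟨A₁, hA₁, hc₁, hH⟩ := hit_orb hq hs hL
  obtain ⟨B, hB, hball⟩ := hit_ball (EO c A₁ L) q M₀ hq hM
  refine ⟨A₁ ∪ B, hA₁.trans Finset.subset_union_left, ?_, fun x => ?_⟩
  · calc q * (A₁ ∪ B).card ≤ q * (A₁.card + B.card) := Nat.mul_le_mul_left _ (Finset.card_union_le _ _)
      _ = q * A₁.card + q * B.card := Nat.mul_add _ _ _
      _ ≤ q * A₀.card + 4 * Fintype.card M := by omega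
  · by_cases hbig : (Cmp (EO c A₁ L) x).card ≤ M₀
    · have h3 : (Orb c A₁ x).card ≤ M₀ * (D + 16 * L ^ 3 + 4 * L + 1) := by
        by_contra hcon
        obtain ⟨t, ht1, ht2, hF⟩ := small_comp hf hH hbig (not_le.1 hcon)
        exact hD t ht1 ht2 hF
      exact ((Finset.card_le_card (Orb_mono Finset.subset_union_left x)).trans h3).trans h2
    · refine (doubling (A := A₁) Finset.subset_union_left (EO c A₁ L) (fun x y h => EO_symm hf hH h)
        (d := 2 * L) (M₀ := M₀) (fun x => EO_card hf hH x) (fun g hg x z h => EO_aut hg h)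
        (fun z ρ hz => hball z ρ (fun y hy hyB => hz y hy (Finset.mem_union_right _ hyB))) ?_).trans h1
      by_contra hcon
      push Not at hcon
      -- the whole component is a ball
      obtain ⟨ρ, hρ⟩ : ∃ ρ, ∀ y ∈ Cmp (EO c A₁ L) x, (Gr (EO c A₁ L)).dist x y ≤ ρ :=
        ⟨(Cmp (EO c A₁ L) x).sup (fun y => (Gr (EO c A₁ L)).dist x y), fun y hy =>
          Finset.le_sup (f := fun y => (Gr (EO c A₁ L)).dist x y) hy⟩
      have h4 := hball x ρ (fun y hy hyB => hcon y (Finset.mem_union_right _ hyB)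
        (mem_Cmp.2 (mem_Ball.1 hy).1))
      apply hbig
      refine (Finset.card_le_card (fun y hy => ?_)).trans h4
      exact mem_Ball.2 ⟨mem_Cmp.1 hy, hρ y hy⟩

end

/-- K11: exponentially many automorphisms give families -/
theorem key (a b : ℕ) : ∃ K : ℕ, ∀ (M Col : Type) [Fintype M] [DecidableEq M] [DecidableEq Col]
    (c : M → M → Col), Flip c → (∀ t, 1 ≤ t → ¬ Fam c t (a * t + b)) →
    Nat.card {g : Equiv.Perm M // IsAut c g} ≤ K ^ Fintype.card M :=
  Pool.Agent.Helper40.EK.key_of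
    (fun _ _ _ _ _ _ hf _ _ _ _ _ _ _ hq hs hL hM h1 h2 hD => step hf hq hs hL hM h1 h2 hD)
    num (fun _ _ _ _ _ _ _ _ _ hs => card_St_le hs) a b

open FirstOrder Pool.Agent.Helper20.Spectra Pool.Agent.Helper31.QD Pool.Agent.Helper38.MC
  Pool.Agent.Helper58.QD Pool.Agent.Helper40.MC

/-- K12 -/
theorem keyR (a b : ℕ) : ∃ K : ℕ, ∀ (S : Type) [Finite S] (ar : S → ℕ), (∀ s, ar s ≤ 2) → ∀ (n : ℕ)
    (R : Interp S ar (Fin n)), (∀ t, 1 ≤ t → ¬ FamR R (a * t + b) t) → Nat.card (AuG R) ≤ K ^ n :=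
  keyR_of key a b

/-- the exact border: for every binary first-order sentence there is a `K` such that the spectrum is
ultimately periodic if `N(n) K ^ n ≤ n!` for all large `n` -/
theorem border (S : Type) [Finite S] (ar : S → ℕ) (har : ∀ s, ar s ≤ 2) (χ : (RelLang S ar).Sentence) :
    ∃ K : ℕ, (∀ᶠ n : ℕ in Filter.atTop, count χ n * K ^ n ≤ n.factorial) →
      ∃ k, FinAP k (Pool.Agent.Helper40.MC.spec χ) :=
  exactFO keyR S ar har χ

/-- the form with all `K` -/
theorem border2 (S : Type) [Finite S] (ar : S → ℕ) (har : ∀ s, ar s ≤ 2) (χ : (RelLang S ar).Sentence)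
    (h : ∀ K : ℕ, ∀ᶠ n : ℕ in Filter.atTop, count χ n * K ^ n ≤ n.factorial) :
    ∃ k, FinAP k (Pool.Agent.Helper40.MC.spec χ) := by
  obtain ⟨K, hK⟩ := border S ar har χ
  exact hK (h K)

end Pool.Agent.Helper12.EK
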