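import Pool.Agent.Helper12.EK.Defs
import Pool.Agent.Helper38.EK.Rand

/-!
# Hitting the differences of pairs in the old orbits; the orbital argument
-/

set_option autoImplicit false
set_option linter.unusedSectionVars false

namespace Pool.Agent.Helper12.EK

open Pool.Agent.Helper6.MC

variable {M Col : Type} [Fintype M] [DecidableEq M] [DecidableEq Col] {c : M → M → Col}

/-- K2: hitting the differences of pairs in the old orbits -/
theorem hit_orb {A₀ : Finset M} {s q L : ℕ} (hq : 1 ≤ q)
    (hs : ∀ x, (Orb c A₀ x).card ≤ s) (hL : s * (q - 1) ^ (L + 1) * q ≤ q ^ (L + 1)) :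
    ∃ A, A₀ ⊆ A ∧ q * A.card ≤ q * A₀.card + 2 * Fintype.card M ∧ HitO c A L := by
  classical
  obtain ⟨B, hB, hB'⟩ := Pool.Agent.Helper38.EK.hitting (M := M) (q := q) (B := s) (L := L + 1) hq
    (fun x => ((Orb c A₀ x).filter (fun y => L < (Df c x y).card)).image (fun y => Df c x y))
    (fun x => (Finset.card_image_le.trans (Finset.card_filter_le _ _)).trans (hs x))
    (fun x D hD => by
      obtain ⟨y, hy, rfl⟩ := Finset.mem_image.1 hD
      exact (Finset.mem_filter.1 hy).2)
    (by
      calc s * q * (q - 1) ^ (L + 1) = s * (q - 1) ^ (L + 1) * q := by ring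
        _ ≤ _ := hL)
  refine ⟨A₀ ∪ B, Finset.subset_union_left, ?_, fun x y hy => ?_⟩
  · calc q * (A₀ ∪ B).card ≤ q * (A₀.card + B.card) := Nat.mul_le_mul_left _ (Finset.card_union_le _ _)
      _ = q * A₀.card + q * B.card := Nat.mul_add _ _ _
      _ ≤ _ := by omega
  · by_contra hcon
    push Not at hcon
    by_cases hx : x ∈ B
    · rw [Orb_of_mem (Finset.mem_union_right _ hx), Finset.mem_singleton] at hy
      subst hy
      have : Df c y y = ∅ := by
        ext z
        simp [mem_Df]
      rw [this] at hcon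
      simp at hcon
    · obtain ⟨z, hz, hzB⟩ := hB' x hx (Df c x y) (Finset.mem_image.2 ⟨y, Finset.mem_filter.2
        ⟨Orb_mono Finset.subset_union_left x hy, hcon⟩, rfl⟩)
      obtain ⟨g, hg, rfl⟩ := mem_Orb.1 hy
      apply mem_Df.1 hz
      have h1 := hg.1 x z
      rw [hg.2 z (Finset.mem_union_right _ hzB)] at h1
      exact h1.symm

/-- K3: the orbital argument -/
theorem orbital {A : Finset M} {L : ℕ} (hH : HitO c A L) {x z : M}
    (h : (Orb c A x).card ^ 2 * L < (Orb c A z).card) :
    ∀ x' ∈ Orb c A x, ∀ z' ∈ Orb c A z, c x' z' = c x z := by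
  classical
  have key : ∀ x' ∈ Orb c A x, c x' z = c x z := by
    intro x' hx'
    by_contra hne
    have hsub : Orb c A z ⊆ (Orb c A x ×ˢ Orb c A x).biUnion (fun p => Df c p.1 p.2) := by
      intro w hw
      obtain ⟨g, hg, rfl⟩ := mem_Orb.1 hw
      rw [Finset.mem_biUnion]
      refine ⟨(g x, g x'), Finset.mem_product.2 ⟨map_Orb (self_Orb x) hg, map_Orb hx' hg⟩, ?_⟩
      rw [mem_Df, hg.1, hg.1]
      exact fun e => hne e.symm
    have h1 := (Finset.card_le_card hsub).trans Finset.card_biUnion_le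
    have h2 : ∑ p ∈ Orb c A x ×ˢ Orb c A x, (Df c p.1 p.2).card ≤
        ∑ p ∈ Orb c A x ×ˢ Orb c A x, L := by
      refine Finset.sum_le_sum (fun p hp => ?_)
      obtain ⟨hp1, hp2⟩ := Finset.mem_product.1 hp
      exact hH p.1 p.2 (by rw [Orb_eq hp1]; exact hp2)
    rw [Finset.sum_const, Finset.card_product, smul_eq_mul] at h2
    have h3 : (Orb c A x).card * (Orb c A x).card * L = (Orb c A x).card ^ 2 * L := by ring
    omega
  intro x' hx' z' hz'
  obtain ⟨g, hg, rfl⟩ := mem_Orb.1 hz'
  have h1 : g.symm x' ∈ Orb c A x := map_Orb hx' hg.inv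
  have h2 := hg.1 (g.symm x') z
  rw [Equiv.apply_symm_apply] at h2
  rw [h2]
  exact key _ h1

end Pool.Agent.Helper12.EK
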